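import Mathlib

set_option autoImplicit false

namespace Pool.Agent.H.MP_5333ad_co
open Finset

theorem unit_step {d : ℕ} (x y : Fin d → ℤ) (h : ∑ i, |x i - y i| = 1) :
    ∃ i, y = Function.update x i (x i + 1) ∨ y = Function.update x i (x i - 1) := by
  obtain ⟨i, -, hi⟩ : ∃ i ∈ (univ : Finset (Fin d)), |x i - y i| ≠ 0 :=
    exists_ne_zero_of_sum_ne_zero (by rw [h]; exact one_ne_zero)
  rw [← add_sum_erase _ _ (mem_univ i)] at h
  have h1 : 0 ≤ ∑ j ∈ univ.erase i, |x j - y j| := sum_nonneg fun j _ => abs_nonneg _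
  have h2 : 0 < |x i - y i| := lt_of_le_of_ne (abs_nonneg _) hi.symm
  have h3 : ∑ j ∈ univ.erase i, |x j - y j| = 0 := by omega
  have h4 : |x i - y i| = 1 := by omega
  have h5 : ∀ j, j ≠ i → y j = x j := fun j hj => by
    have := (sum_eq_zero_iff_of_nonneg fun j _ => abs_nonneg (x j - y j)).1 h3 j
      (mem_erase.2 ⟨hj, mem_univ j⟩)
    rw [abs_eq_zero] at this
    omega
  refine ⟨i, ?_⟩
  rcases abs_eq (by norm_num : (0 : ℤ) ≤ 1) |>.1 h4 with h6 | h6
  · right
    funext j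
    by_cases hj : j = i
    · subst hj; rw [Function.update_self]; omega
    · rw [Function.update_of_ne hj, h5 j hj]
  · left
    funext j
    by_cases hj : j = i
    · subst hj; rw [Function.update_self]; omega
    · rw [Function.update_of_ne hj, h5 j hj]

noncomputable def box {d : ℕ} (m : Fin d → ℕ) : Finset (Fin d → ℤ) := Fintype.piFinset fun i => Ico (0 : ℤ) (m i)

theorem card_box {d : ℕ} (m : Fin d → ℕ) : (box m).card = ∏ i, m i := by
  simp [box, Fintype.card_piFinset]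

noncomputable def face {d : ℕ} (m : Fin d → ℕ) (i : Fin d) (v : ℤ) : Finset (Fin d → ℤ) :=
  Fintype.piFinset (Function.update (fun j => Ico (0 : ℤ) (m j)) i {v})

theorem card_face {d : ℕ} (m : Fin d → ℕ) (i : Fin d) (v : ℤ) :
    (face m i v).card * m i = ∏ j, m j := by
  rw [face, Fintype.card_piFinset, ← mul_prod_erase _ _ (mem_univ i),
    ← mul_prod_erase _ m (mem_univ i), Function.update_self, card_singleton, one_mul, mul_comm]
  congr 1
  refine prod_congr rfl fun j hj => ?_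
  rw [Function.update_of_ne (mem_erase.1 hj).1]
  simp

theorem bdry {d : ℕ} (m : Fin d → ℕ) (hm : ∀ i, 0 < m i) :
    ∃ B : Finset ((Fin d → ℤ) × (Fin d → ℤ)),
      (∀ p, p ∈ B ↔ p.1 ∈ box m ∧ p.2 ∉ box m ∧ ∑ i, |p.1 i - p.2 i| = 1) ∧
      (B.card : ℝ) ≤ 2 * (box m).card * ∑ i, (1 : ℝ) / m i := by
  classical
  let T : Finset ((Fin d → ℤ) × (Fin d → ℤ)) := univ.biUnion fun i =>
    (face m i (m i - 1)).image (fun x => (x, Function.update x i (x i + 1))) ∪
      (face m i 0).image fun x => (x, Function.update x i (x i - 1))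
  refine ⟨T.filter fun p => p.1 ∈ box m ∧ p.2 ∉ box m ∧ ∑ i, |p.1 i - p.2 i| = 1, fun p => ?_, ?_⟩
  · rw [mem_filter]
    refine ⟨fun h => h.2, fun h => ⟨?_, h⟩⟩
    obtain ⟨x, y⟩ := p
    obtain ⟨hx, hy, h⟩ := h
    obtain ⟨i, hi⟩ := unit_step x y h
    simp only [box, Fintype.mem_piFinset, mem_Ico] at hx hy
    have key : ∀ w : ℤ, y = Function.update x i w → ¬ (0 ≤ w ∧ w < m i) := by
      intro w hw h1
      apply hy
      intro j
      by_cases hj : j = i
      · subst hj; rw [hw, Function.update_self]; exact h1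
      · rw [hw, Function.update_of_ne hj]; exact hx j
    have hf : ∀ v, x i = v → x ∈ face m i v := by
      intro v hv
      rw [face, Fintype.mem_piFinset]
      intro j
      by_cases hj : j = i
      · subst hj; rw [Function.update_self, mem_singleton]; exact hv
      · rw [Function.update_of_ne hj, mem_Ico]; exact hx j
    have hxi := hx i
    refine mem_biUnion.2 ⟨i, mem_univ i, mem_union.2 ?_⟩
    rcases hi with hi | hi
    · have := key _ hi
      exact Or.inl (mem_image.2 ⟨x, hf _ (by omega), by rw [hi]⟩)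
    · have := key _ hi
      exact Or.inr (mem_image.2 ⟨x, hf _ (by omega), by rw [hi]⟩)
  · have h1 : T.card ≤ ∑ i, ((face m i (m i - 1)).card + (face m i 0).card) :=
      card_biUnion_le.trans (sum_le_sum fun i _ =>
        (card_union_le _ _).trans (add_le_add card_image_le card_image_le))
    have h2 := (card_filter_le T
      fun p => p.1 ∈ box m ∧ p.2 ∉ box m ∧ ∑ i, |p.1 i - p.2 i| = 1).trans h1
    refine le_trans (Nat.cast_le.2 h2) (le_of_eq ?_)
    rw [Nat.cast_sum, mul_sum]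
    refine sum_congr rfl fun i _ => ?_
    have h3 : ∀ v, ((face m i v).card : ℝ) * m i = (box m).card := fun v => by
      rw [card_box, ← card_face m i v, Nat.cast_mul]
    have h4 : (m i : ℝ) ≠ 0 := Nat.cast_ne_zero.2 (hm i).ne'
    have h5 := h3 (m i - 1)
    have h6 := h3 0
    rw [Nat.cast_add]
    field_simp
    linarith

def sd (k : ℕ) : Fin (k + k) → ℕ := Fin.addCases (fun _ => k) (fun _ => k + 1)

theorem card_sd (k : ℕ) : (box (sd k)).card = k ^ k * (k + 1) ^ k := by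
  rw [card_box, Fin.prod_univ_add]
  simp only [sd, Fin.addCases_left, Fin.addCases_right]
  simp

theorem sum_sd (k : ℕ) (hk : 0 < k) :
    ∑ i, (1 : ℝ) / sd k i = (2 * k + 1) / (k + 1) := by
  rw [Fin.sum_univ_add]
  have : (k : ℝ) ≠ 0 := Nat.cast_ne_zero.2 hk.ne'
  simp only [sd, Fin.addCases_left, Fin.addCases_right]
  simp
  field_simp
  ring

theorem sd_pos (k : ℕ) (hk : 0 < k) (i : Fin (k + k)) : 0 < sd k i := by
  refine Fin.addCases (fun j => ?_) (fun j => ?_) i <;>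
    simp only [sd, Fin.addCases_left, Fin.addCases_right] <;> omega

theorem bern (k : ℕ) (hk : 0 < k) : 2 * k ^ k ≤ (k + 1) ^ k := by
  have h0 : (0 : ℝ) < k := Nat.cast_pos.2 hk
  have h00 : 0 < 1 / (k : ℝ) := by positivity
  have h1 := one_add_mul_le_pow (a := (1 : ℝ) / k) (by linarith) k
  have h2 : (1 + 1 / (k : ℝ)) ^ k * k ^ k = (k + 1) ^ k := by
    rw [← mul_pow]; congr 1; field_simp
  have h3 : (1 : ℝ) + k * (1 / k) = 2 := by field_simp; norm_num
  rw [h3] at h1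
  have h4 : (2 : ℝ) * k ^ k ≤ (k + 1) ^ k := by
    rw [← h2]; gcongr
  exact_mod_cast h4

theorem far (k : ℕ) (hk : 0 < k) (C : Finset (Fin (k + k) → ℤ)) (c : ℕ) (hC : C.card = c ^ (k + k)) :
    (box (sd k)).card ≤ 2 * (symmDiff (box (sd k)) C).card := by
  have h1 : (box (sd k)).card ≤ (symmDiff (box (sd k)) C).card + C.card :=
    le_trans (card_le_card fun x hx => by
      rw [mem_union, mem_symmDiff]; tauto) (card_union_le _ _)
  have h2 : C.card ≤ (symmDiff (box (sd k)) C).card + (box (sd k)).card :=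
    le_trans (card_le_card fun x hx => by
      rw [mem_union, mem_symmDiff]; tauto) (card_union_le _ _)
  have h3 := bern k hk
  rw [card_sd] at *
  rw [hC, pow_add] at h1 h2
  rcases le_or_gt c k with h | h
  · have h4 : c ^ k ≤ k ^ k := Nat.pow_le_pow_left h k
    have h5 : c ^ k * c ^ k ≤ k ^ k * k ^ k := Nat.mul_le_mul h4 h4
    have h6 : k ^ k * (2 * k ^ k) ≤ k ^ k * (k + 1) ^ k := Nat.mul_le_mul_left _ h3
    have h7 : k ^ k * (2 * k ^ k) = 2 * (k ^ k * k ^ k) := by ring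
    omega
  · have h4 : (k + 1) ^ k ≤ c ^ k := Nat.pow_le_pow_left h k
    have h5 : (k + 1) ^ k * (k + 1) ^ k ≤ c ^ k * c ^ k := Nat.mul_le_mul h4 h4
    have h6 : (2 * k ^ k) * (k + 1) ^ k ≤ (k + 1) ^ k * (k + 1) ^ k := Nat.mul_le_mul_right _ h3
    have h7 : (2 * k ^ k) * (k + 1) ^ k = 2 * (k ^ k * (k + 1) ^ k) := by ring
    omega

theorem iso (k : ℕ) (hk : 0 < k) :
    2 * ((box (sd k)).card : ℝ) * ((2 * k + 1) / (k + 1)) ≤
      2 * ((k + k : ℕ) : ℝ) * ((box (sd k)).card : ℝ) ^ ((((k + k : ℕ) : ℝ) - 1) / ((k + k : ℕ) : ℝ)) *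
        (1 + 1 / (8 * (k : ℝ) ^ 2)) := by
  have h0 : (0 : ℝ) < k := Nat.cast_pos.2 hk
  set r := Real.sqrt (k * (k + 1)) with hr
  have hr0 : 0 < r := Real.sqrt_pos.2 (by positivity)
  have hr2 : r ^ 2 = k * (k + 1) := Real.sq_sqrt (by positivity)
  have h1 : ((box (sd k)).card : ℝ) = r ^ (k + k) := by
    rw [card_sd, ← two_mul, pow_mul, hr2, mul_pow]
    push_cast
    rfl
  have h2 : (r ^ (k + k)) ^ ((((k + k : ℕ) : ℝ) - 1) / ((k + k : ℕ) : ℝ)) = r ^ (k + k) / r := by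
    have h3 : ((k + k : ℕ) : ℝ) ≠ 0 := Nat.cast_ne_zero.2 (by omega)
    rw [← Real.rpow_natCast, ← Real.rpow_mul hr0.le, mul_div_cancel₀ _ h3, Real.rpow_sub hr0,
      Real.rpow_one]
  rw [h1, h2]
  have h4 : 2 * (k : ℝ) + 1 ≤ 2 * r * (1 + 1 / (8 * (k : ℝ) ^ 2)) := by
    apply le_of_sq_le_sq _ (by positivity) |> fun h => h
    have h5 : (2 * r * (1 + 1 / (8 * (k : ℝ) ^ 2))) ^ 2 =
        4 * (k * (k + 1)) * (1 + 1 / (8 * (k : ℝ) ^ 2)) ^ 2 := by rw [← hr2]; ring
    rw [h5]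
    have h6 : 1 + 1 / (4 * (k : ℝ) ^ 2) ≤ (1 + 1 / (8 * (k : ℝ) ^ 2)) ^ 2 := by
      have : (1 + 1 / (8 * (k : ℝ) ^ 2)) ^ 2 =
          1 + 1 / (4 * (k : ℝ) ^ 2) + (1 / (8 * (k : ℝ) ^ 2)) ^ 2 := by field_simp; ring
      rw [this]
      exact le_add_of_nonneg_right (by positivity)
    calc (2 * (k : ℝ) + 1) ^ 2 ≤ 4 * (k * (k + 1)) + (k + 1) / k := by
          have : 1 ≤ ((k : ℝ) + 1) / k := by rw [le_div_iff₀ h0]; linarith
          nlinarith
      _ = 4 * (k * (k + 1)) * (1 + 1 / (4 * (k : ℝ) ^ 2)) := by field_simp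
      _ ≤ _ := by gcongr
  have h7 : 0 < r ^ (k + k) := by positivity
  have h8 : 2 * ((k + k : ℕ) : ℝ) * (r ^ (k + k) / r) * (1 + 1 / (8 * (k : ℝ) ^ 2)) =
      2 * r ^ (k + k) * ((2 * r * (1 + 1 / (8 * (k : ℝ) ^ 2))) / (k + 1)) := by
    have h9 : (k : ℝ) + 1 = r ^ 2 / k := by rw [hr2]; field_simp
    rw [h9]
    push_cast
    field_simp
    ring
  rw [h8]
  gcongr

end Pool.Agent.H.MP_5333ad_co
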